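import Pool.Agent.H30.CX.Fin

set_option autoImplicit false

/-!
# MP_bddfa3_an: the second interior and exterior Steklov eigenvalues of convex domains
-/

namespace Pool.Agent.Results.MP_bddfa3_an.ConvexDomains

open MeasureTheory Set Filter Topology

/-- `ψ` is holomorphic on a neighbourhood `{|w| > r}`, `r < 1`, of `{|w| ≥ 1}`, injective on `{|w| ≥ 1}`, with nonzero
derivative on the unit circle, and `ψ(w)/w` has a nonzero limit at infinity. -/
structure IsExteriorMap (ψ : ℂ → ℂ) : Prop where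
  holomorphic : ∃ r : ℝ, r < 1 ∧ DifferentiableOn ℂ ψ {w | r < ‖w‖}
  injective : InjOn ψ {w | 1 ≤ ‖w‖}
  deriv_ne_zero : ∀ w, ‖w‖ = 1 → deriv ψ w ≠ 0
  infinity : ∃ c : ℂ, c ≠ 0 ∧ Tendsto (fun w => ψ w / w) (cocompact ℂ) (𝓝 c)

/-- The domain `Ω`: the complement of `ψ {|w| ≥ 1}`. -/
def domain (ψ : ℂ → ℂ) : Set ℂ := (ψ '' {w | 1 ≤ ‖w‖})ᶜ

/-- The exterior domain `ψ {|w| > 1}`. -/
def exterior (ψ : ℂ → ℂ) : Set ℂ := ψ '' {w | 1 < ‖w‖}

/-- The Dirichlet integral of `u` over `S`. -/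
noncomputable def dirichlet (S : Set ℂ) (u : ℂ → ℝ) : ℝ := ∫ z in S, ‖fderiv ℝ u z‖ ^ 2

/-- The integral of `f` over the boundary curve `ψ (e^{iθ})` with respect to arc length. -/
noncomputable def arcIntegral (ψ : ℂ → ℂ) (f : ℂ → ℝ) : ℝ :=
  ∫ θ in (0 : ℝ)..(2 * Real.pi), f (ψ (Complex.exp (θ * Complex.I))) * ‖deriv ψ (Complex.exp (θ * Complex.I))‖

/-- Test functions for the exterior: bounded functions of class `C¹` with finite Dirichlet integral over the exterior. -/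
def IsExteriorTest (ψ : ℂ → ℂ) (u : ℂ → ℝ) : Prop :=
  ContDiff ℝ 1 u ∧ (∃ C : ℝ, ∀ z, |u z| ≤ C) ∧ IntegrableOn (fun z => ‖fderiv ℝ u z‖ ^ 2) (exterior ψ)

/-- The infimum of the real `R` for which there are `k` test functions, linearly independent on the boundary curve, such
that the Dirichlet integral over `S` of every linear combination is at most `R` times the integral of its square over the
boundary. -/
noncomputable def minMax (ψ : ℂ → ℂ) (S : Set ℂ) (Test : (ℂ → ℝ) → Prop) (k : ℕ) : EReal :=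
  sInf {x : EReal | ∃ R : ℝ, x = R ∧ ∃ u : Fin k → ℂ → ℝ, (∀ i, Test (u i)) ∧
    (∀ c : Fin k → ℝ, (∀ w : ℂ, ‖w‖ = 1 → ∑ i, c i * u i (ψ w) = 0) → c = 0) ∧
    ∀ c : Fin k → ℝ, dirichlet S (fun z => ∑ i, c i * u i z) ≤ R * arcIntegral ψ (fun z => (∑ i, c i * u i z) ^ 2)}

/-- The `k`-th interior Steklov eigenvalue (`k ≥ 1`), by the min-max principle; test functions: class `C¹`. -/
noncomputable def interiorSteklov (ψ : ℂ → ℂ) (k : ℕ) : EReal :=
  minMax ψ (domain ψ) (fun u => ContDiff ℝ 1 u) k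

/-- The `k`-th exterior Steklov eigenvalue (`k ≥ 1`), by the min-max principle. -/
noncomputable def exteriorSteklov (ψ : ℂ → ℂ) (k : ℕ) : EReal :=
  minMax ψ (exterior ψ) (IsExteriorTest ψ) k

/-- `Ω` (bounded and open) with diameter `d`. (1) If `|ψ'| ≤ M` on the unit circle and `6 M |Ω| < d³`, then the second
interior eigenvalue is less than `1 / M` and the second exterior one is at least `1 / M`. Let `Ω` be convex, `ψ(w)/w → c`.
(2) `|ψ'| ≤ 2 |c| ≤ d` on the unit circle, and the second exterior eigenvalue is at least `1 / (2 |c|)` and `1 / d`.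
(3) If `6 |Ω| < d²`, the second interior eigenvalue is less than `1 / d`, so less than the second exterior one.
(4) If `2 |c| |Ω| < ∫ (x - m)² ds` over the boundary, `m` the mean of `x`, the second interior eigenvalue is less than
`1 / (2 |c|)`, so less than the second exterior one. -/
theorem result (ψ : ℂ → ℂ) (hψ : IsExteriorMap ψ) :
    (Bornology.IsBounded (domain ψ) ∧ IsOpen (domain ψ)) ∧
    (∀ M : ℝ, (∀ w : ℂ, ‖w‖ = 1 → ‖deriv ψ w‖ ≤ M) →
      6 * M * volume.real (domain ψ) < Metric.diam (domain ψ) ^ 3 →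
      interiorSteklov ψ 2 < ((1 / M : ℝ) : EReal) ∧ ((1 / M : ℝ) : EReal) ≤ exteriorSteklov ψ 2) ∧
    (Convex ℝ (domain ψ) →
      (∀ c : ℂ, Tendsto (fun w => ψ w / w) (cocompact ℂ) (𝓝 c) →
        (∀ w : ℂ, ‖w‖ = 1 → ‖deriv ψ w‖ ≤ 2 * ‖c‖) ∧ 2 * ‖c‖ ≤ Metric.diam (domain ψ) ∧
        ((1 / (2 * ‖c‖) : ℝ) : EReal) ≤ exteriorSteklov ψ 2 ∧
        (2 * ‖c‖ * volume.real (domain ψ) <
            arcIntegral ψ (fun z => (z.re - arcIntegral ψ (fun z => z.re) / arcIntegral ψ (fun _ => 1)) ^ 2) →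
          interiorSteklov ψ 2 < ((1 / (2 * ‖c‖) : ℝ) : EReal) ∧ interiorSteklov ψ 2 < exteriorSteklov ψ 2)) ∧
      ((1 / Metric.diam (domain ψ) : ℝ) : EReal) ≤ exteriorSteklov ψ 2 ∧
      (6 * volume.real (domain ψ) < Metric.diam (domain ψ) ^ 2 →
        interiorSteklov ψ 2 < ((1 / Metric.diam (domain ψ) : ℝ) : EReal) ∧
        interiorSteklov ψ 2 < exteriorSteklov ψ 2)) := by
  obtain ⟨h0, h1, h2⟩ := Pool.Agent.H30.CX.final ψ
    ⟨hψ.holomorphic, hψ.injective, hψ.deriv_ne_zero, hψ.infinity⟩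
  refine ⟨h0, h1, fun hcv => ?_⟩
  obtain ⟨h3, h4, h5⟩ := h2 hcv
  refine ⟨fun c hc => ?_, h4, fun hlt => ⟨h5 hlt, lt_of_lt_of_le (h5 hlt) h4⟩⟩
  obtain ⟨h6, h7, h8, h9⟩ := h3 c hc
  exact ⟨h6, h7, h8, fun hlt => ⟨h9 hlt, lt_of_lt_of_le (h9 hlt) h8⟩⟩

end Pool.Agent.Results.MP_bddfa3_an.ConvexDomains
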