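import Pool.Agent.H74.DE.Fin

set_option autoImplicit false

/-!
# MP_bddfa3_an: the second interior and exterior Steklov eigenvalues of small analytic deformations of the disk
-/

namespace Pool.Agent.Results.MP_bddfa3_an.DeformedDisk

open MeasureTheory Set Filter Topology

/-- `ψ` is holomorphic on a neighbourhood `{|w| > r}`, `r < 1`, of `{|w| ≥ 1}`, injective on `{|w| ≥ 1}`, with nonzero
derivative on the unit circle, and `ψ(w)/w` has a nonzero limit at infinity. -/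
structure IsExteriorMap (ψ : ℂ → ℂ) : Prop where
  holomorphic : ∃ r : ℝ, r < 1 ∧ DifferentiableOn ℂ ψ {w | r < ‖w‖}
  injective : InjOn ψ {w | 1 ≤ ‖w‖}
  deriv_ne_zero : ∀ w, ‖w‖ = 1 → deriv ψ w ≠ 0
  infinity : ∃ c : ℂ, c ≠ 0 ∧ Tendsto (fun w => ψ w / w) (cocompact ℂ) (𝓝 c)

/-- The domain `Ω`: the complement of `ψ {|w| ≥ 1}`. -/
def domain (ψ : ℂ → ℂ) : Set ℂ := (ψ '' {w | 1 ≤ ‖w‖})ᶜ

/-- The exterior domain `ψ {|w| > 1}`. -/
def exterior (ψ : ℂ → ℂ) : Set ℂ := ψ '' {w | 1 < ‖w‖}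

/-- The Dirichlet integral of `u` over `S`. -/
noncomputable def dirichlet (S : Set ℂ) (u : ℂ → ℝ) : ℝ := ∫ z in S, ‖fderiv ℝ u z‖ ^ 2

/-- The integral of `f` over the boundary curve `ψ (e^{iθ})` with respect to arc length. -/
noncomputable def arcIntegral (ψ : ℂ → ℂ) (f : ℂ → ℝ) : ℝ :=
  ∫ θ in (0 : ℝ)..(2 * Real.pi), f (ψ (Complex.exp (θ * Complex.I))) * ‖deriv ψ (Complex.exp (θ * Complex.I))‖

/-- Test functions for the exterior: bounded functions of class `C¹` with finite Dirichlet integral over the exterior. -/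
def IsExteriorTest (ψ : ℂ → ℂ) (u : ℂ → ℝ) : Prop :=
  ContDiff ℝ 1 u ∧ (∃ C : ℝ, ∀ z, |u z| ≤ C) ∧ IntegrableOn (fun z => ‖fderiv ℝ u z‖ ^ 2) (exterior ψ)

/-- The infimum of the real `R` for which there are `k` test functions, linearly independent on the boundary curve, such
that the Dirichlet integral over `S` of every linear combination is at most `R` times the integral of its square over the
boundary. -/
noncomputable def minMax (ψ : ℂ → ℂ) (S : Set ℂ) (Test : (ℂ → ℝ) → Prop) (k : ℕ) : EReal :=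
  sInf {x : EReal | ∃ R : ℝ, x = R ∧ ∃ u : Fin k → ℂ → ℝ, (∀ i, Test (u i)) ∧
    (∀ c : Fin k → ℝ, (∀ w : ℂ, ‖w‖ = 1 → ∑ i, c i * u i (ψ w) = 0) → c = 0) ∧
    ∀ c : Fin k → ℝ, dirichlet S (fun z => ∑ i, c i * u i z) ≤ R * arcIntegral ψ (fun z => (∑ i, c i * u i z) ^ 2)}

/-- The `k`-th interior Steklov eigenvalue (`k ≥ 1`), by the min-max principle; test functions: class `C¹`. -/
noncomputable def interiorSteklov (ψ : ℂ → ℂ) (k : ℕ) : EReal :=
  minMax ψ (domain ψ) (fun u => ContDiff ℝ 1 u) k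

/-- The `k`-th exterior Steklov eigenvalue (`k ≥ 1`), by the min-max principle. -/
noncomputable def exteriorSteklov (ψ : ℂ → ℂ) (k : ℕ) : EReal :=
  minMax ψ (exterior ψ) (IsExteriorTest ψ) k

/-- The deformed map `w + ε g(1/w)`. -/
noncomputable def deformed (g : ℂ → ℂ) (ε : ℝ) (w : ℂ) : ℂ := w + ε * g w⁻¹

/-- Let `g` be holomorphic on `|z| < ρ`, `ρ > 1`, and `ψ w = w + ε g(1/w)`. (1) There are `C` and `ε₀ > 0` such that for
`0 < ε < ε₀` the map `ψ` satisfies the conditions `IsExteriorMap`, the second interior eigenvalue of its domain is at most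
`1 - (3/2) |g'(0)| ε + C ε²`, and the second exterior eigenvalue is at least `1 - (1/2) |g'(0)| ε - C ε²`. (2) If `g'(0) ≠ 0`, the
second interior eigenvalue is less than the second exterior eigenvalue for all small `ε > 0`. (3) If `g` is not constant, then for
`k = 2` or for `k = 3` the `k`-th interior eigenvalue is less than the `k`-th exterior eigenvalue for all small `ε > 0`. -/
theorem result (g : ℂ → ℂ) (ρ : ℝ) (hρ : 1 < ρ) (hg : DifferentiableOn ℂ g (Metric.ball 0 ρ)) :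
    (∃ C ε₀ : ℝ, 0 < ε₀ ∧ ∀ ε : ℝ, 0 < ε → ε < ε₀ → IsExteriorMap (deformed g ε) ∧
      interiorSteklov (deformed g ε) 2 ≤ ((1 - 3 / 2 * ‖deriv g 0‖ * ε + C * ε ^ 2 : ℝ) : EReal) ∧
      ((1 - 1 / 2 * ‖deriv g 0‖ * ε - C * ε ^ 2 : ℝ) : EReal) ≤ exteriorSteklov (deformed g ε) 2) ∧
    (deriv g 0 ≠ 0 → ∃ ε₀ : ℝ, 0 < ε₀ ∧ ∀ ε : ℝ, 0 < ε → ε < ε₀ →
      interiorSteklov (deformed g ε) 2 < exteriorSteklov (deformed g ε) 2) ∧
    ((∃ z : ℂ, ‖z‖ < ρ ∧ g z ≠ g 0) → ∃ k : ℕ, (k = 2 ∨ k = 3) ∧ ∃ ε₀ : ℝ, 0 < ε₀ ∧ ∀ ε : ℝ, 0 < ε → ε < ε₀ →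
      interiorSteklov (deformed g ε) k < exteriorSteklov (deformed g ε) k) := by
  obtain ⟨⟨C, ε₀, hε₀, H⟩, H2⟩ := Pool.Agent.H74.DD.fin (g := g) (ρ := ρ) ⟨hρ, hg⟩
  refine ⟨⟨C, ε₀, hε₀, fun ε h1 h2 => ?_⟩, H2, fun h => Pool.Agent.H74.DE.finA ⟨hρ, hg⟩ h⟩
  obtain ⟨hc, h3, h4⟩ := H ε h1 h2
  exact ⟨⟨hc.hol, hc.inj, hc.nz, hc.inf⟩, h3, h4⟩

end Pool.Agent.Results.MP_bddfa3_an.DeformedDisk
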