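import Pool.Agent.H74.SX.Fin

set_option autoImplicit false

/-!
# MP_bddfa3_an: the second interior and exterior Steklov eigenvalues; ellipses
-/

namespace Pool.Agent.Results.MP_bddfa3_an.EllipseCriterion

open MeasureTheory Set Filter Topology

/-- `ψ` is holomorphic on a neighbourhood `{|w| > r}`, `r < 1`, of `{|w| ≥ 1}`, injective on `{|w| ≥ 1}`, with nonzero
derivative on the unit circle, and `ψ(w)/w` has a nonzero limit at infinity. -/
structure IsExteriorMap (ψ : ℂ → ℂ) : Prop where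
  holomorphic : ∃ r : ℝ, r < 1 ∧ DifferentiableOn ℂ ψ {w | r < ‖w‖}
  injective : InjOn ψ {w | 1 ≤ ‖w‖}
  deriv_ne_zero : ∀ w, ‖w‖ = 1 → deriv ψ w ≠ 0
  infinity : ∃ c : ℂ, c ≠ 0 ∧ Tendsto (fun w => ψ w / w) (cocompact ℂ) (𝓝 c)

/-- The domain `Ω`: the complement of `ψ {|w| ≥ 1}`. -/
def domain (ψ : ℂ → ℂ) : Set ℂ := (ψ '' {w | 1 ≤ ‖w‖})ᶜ

/-- The exterior domain `ψ {|w| > 1}`. -/
def exterior (ψ : ℂ → ℂ) : Set ℂ := ψ '' {w | 1 < ‖w‖}

/-- The Dirichlet integral of `u` over `S`. -/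
noncomputable def dirichlet (S : Set ℂ) (u : ℂ → ℝ) : ℝ := ∫ z in S, ‖fderiv ℝ u z‖ ^ 2

/-- The integral of `f` over the boundary curve `ψ (e^{iθ})` with respect to arc length. -/
noncomputable def arcIntegral (ψ : ℂ → ℂ) (f : ℂ → ℝ) : ℝ :=
  ∫ θ in (0 : ℝ)..(2 * Real.pi), f (ψ (Complex.exp (θ * Complex.I))) * ‖deriv ψ (Complex.exp (θ * Complex.I))‖

/-- Test functions for the exterior: bounded functions of class `C¹` with finite Dirichlet integral over the exterior. -/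
def IsExteriorTest (ψ : ℂ → ℂ) (u : ℂ → ℝ) : Prop :=
  ContDiff ℝ 1 u ∧ (∃ C : ℝ, ∀ z, |u z| ≤ C) ∧ IntegrableOn (fun z => ‖fderiv ℝ u z‖ ^ 2) (exterior ψ)

/-- The infimum of the real `R` for which there are `k` test functions, linearly independent on the boundary curve, such
that the Dirichlet integral over `S` of every linear combination is at most `R` times the integral of its square over the
boundary. -/
noncomputable def minMax (ψ : ℂ → ℂ) (S : Set ℂ) (Test : (ℂ → ℝ) → Prop) (k : ℕ) : EReal :=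
  sInf {x : EReal | ∃ R : ℝ, x = R ∧ ∃ u : Fin k → ℂ → ℝ, (∀ i, Test (u i)) ∧
    (∀ c : Fin k → ℝ, (∀ w : ℂ, ‖w‖ = 1 → ∑ i, c i * u i (ψ w) = 0) → c = 0) ∧
    ∀ c : Fin k → ℝ, dirichlet S (fun z => ∑ i, c i * u i z) ≤ R * arcIntegral ψ (fun z => (∑ i, c i * u i z) ^ 2)}

/-- The `k`-th interior Steklov eigenvalue (`k ≥ 1`), by the min-max principle; test functions: class `C¹`. -/
noncomputable def interiorSteklov (ψ : ℂ → ℂ) (k : ℕ) : EReal :=
  minMax ψ (domain ψ) (fun u => ContDiff ℝ 1 u) k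

/-- The `k`-th exterior Steklov eigenvalue (`k ≥ 1`), by the min-max principle. -/
noncomputable def exteriorSteklov (ψ : ℂ → ℂ) (k : ℕ) : EReal :=
  minMax ψ (exterior ψ) (IsExteriorTest ψ) k

/-- (1) If `|ψ'| ≤ M` on the unit circle, the second exterior eigenvalue is at least `1 / M`.
(2) If, moreover, `M |Ω| < ∫ (x - m)² ds` over the boundary, `m` the mean of `x`, then the second interior eigenvalue is less
than `1 / M`, so less than the second exterior eigenvalue.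
(3) For every ellipse `x²/a² + y²/b² < 1`, `a > b > 0`, the second interior eigenvalue is less than `1 / a` and the second
exterior eigenvalue is at least `1 / a`. -/
theorem result :
    (∀ ψ : ℂ → ℂ, IsExteriorMap ψ → ∀ M : ℝ, (∀ w : ℂ, ‖w‖ = 1 → ‖deriv ψ w‖ ≤ M) →
      ((1 / M : ℝ) : EReal) ≤ exteriorSteklov ψ 2 ∧
      (M * volume.real (domain ψ) <
          arcIntegral ψ (fun z => (z.re - arcIntegral ψ (fun z => z.re) / arcIntegral ψ (fun _ => 1)) ^ 2) →
        interiorSteklov ψ 2 < ((1 / M : ℝ) : EReal) ∧ interiorSteklov ψ 2 < exteriorSteklov ψ 2)) ∧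
    (∀ a b : ℝ, 0 < b → b < a → ∃ ψ : ℂ → ℂ, IsExteriorMap ψ ∧
      domain ψ = {z : ℂ | (z.re / a) ^ 2 + (z.im / b) ^ 2 < 1} ∧
      exterior ψ = {z : ℂ | 1 < (z.re / a) ^ 2 + (z.im / b) ^ 2} ∧
      interiorSteklov ψ 2 < ((1 / a : ℝ) : EReal) ∧ ((1 / a : ℝ) : EReal) ≤ exteriorSteklov ψ 2) := by
  refine ⟨fun ψ h M hM => ?_, fun a b hb hab => ?_⟩
  · have hc : Pool.Agent.H74.SX.Chart ψ := ⟨h.holomorphic, h.injective, h.deriv_ne_zero, h.infinity⟩
    have h1 := Pool.Agent.H74.SX.lower hc hM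
    refine ⟨h1, fun hD => ?_⟩
    have h2 := Pool.Agent.H74.SX.upper hc hM hD
    exact ⟨h2, lt_of_lt_of_le h2 h1⟩
  · obtain ⟨hc, hi, he, h1, h2⟩ := Pool.Agent.H74.SX.ellipse hb hab
    exact ⟨Pool.Agent.H74.SX.ell a b, ⟨hc.hol, hc.inj, hc.nz, hc.inf⟩, hi, he, h1, h2⟩

end Pool.Agent.Results.MP_bddfa3_an.EllipseCriterion
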