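import Pool.Agent.H74.CV.Fin

set_option autoImplicit false

/-!
# MP_bddfa3_an: convex domains, the second exterior Steklov eigenvalue and the perimeter
-/

namespace Pool.Agent.Results.MP_bddfa3_an.PerimeterBound

open MeasureTheory Set Filter Topology

/-- The unit vector `e^{iθ}`. -/
noncomputable def direction (θ : ℝ) : ℂ := Complex.exp (θ * Complex.I)

/-- `p` is of class `C²`, has period `2π`, `p + p'' ≥ 0`, and its integral over a period is positive. -/
structure IsSupportFunction (p : ℝ → ℝ) : Prop where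
  contDiff : ContDiff ℝ 2 p
  periodic : Function.Periodic p (2 * Real.pi)
  nonneg : ∀ θ, 0 ≤ p θ + deriv (deriv p) θ
  pos : 0 < ∫ θ in (0 : ℝ)..(2 * Real.pi), p θ

/-- The convex domain with support function `p`. -/
def domain (p : ℝ → ℝ) : Set ℂ := {z | ∀ θ : ℝ, ((starRingEnd ℂ) (direction θ) * z).re < p θ}

/-- Its exterior. -/
def exterior (p : ℝ → ℝ) : Set ℂ := {z | ∃ θ : ℝ, p θ < ((starRingEnd ℂ) (direction θ) * z).re}

/-- The boundary point with outer normal `e^{iθ}`. -/
noncomputable def boundaryPoint (p : ℝ → ℝ) (θ : ℝ) : ℂ := (p θ + deriv p θ * Complex.I) * direction θ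

/-- The radius of curvature `p + p''`. -/
noncomputable def radius (p : ℝ → ℝ) (θ : ℝ) : ℝ := p θ + deriv (deriv p) θ

/-- The perimeter `∫ p dθ` (formula of Cauchy). -/
noncomputable def perimeter (p : ℝ → ℝ) : ℝ := ∫ θ in (0 : ℝ)..(2 * Real.pi), p θ

/-- The integral over the boundary with respect to arc length `ds = (p + p'') dθ`. -/
noncomputable def arcIntegral (p : ℝ → ℝ) (f : ℂ → ℝ) : ℝ :=
  ∫ θ in (0 : ℝ)..(2 * Real.pi), f (boundaryPoint p θ) * radius p θ

/-- The Dirichlet integral of `u` over `S`. -/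
noncomputable def dirichlet (S : Set ℂ) (u : ℂ → ℝ) : ℝ := ∫ z in S, ‖fderiv ℝ u z‖ ^ 2

/-- Test functions for the exterior: bounded functions of class `C¹` with finite Dirichlet integral over the exterior. -/
def IsExteriorTest (p : ℝ → ℝ) (u : ℂ → ℝ) : Prop :=
  ContDiff ℝ 1 u ∧ (∃ C : ℝ, ∀ z, |u z| ≤ C) ∧ IntegrableOn (fun z => ‖fderiv ℝ u z‖ ^ 2) (exterior p)

/-- The infimum of the real `R` for which there are `k` test functions, linearly independent in the space of square
integrable functions on the boundary, such that the Dirichlet integral over `S` of every linear combination is at most `R`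
times the integral of its square over the boundary. -/
noncomputable def minMax (p : ℝ → ℝ) (S : Set ℂ) (Test : (ℂ → ℝ) → Prop) (k : ℕ) : EReal :=
  sInf {x : EReal | ∃ R : ℝ, x = R ∧ ∃ u : Fin k → ℂ → ℝ, (∀ i, Test (u i)) ∧
    (∀ c : Fin k → ℝ, c ≠ 0 → 0 < arcIntegral p (fun z => (∑ i, c i * u i z) ^ 2)) ∧
    ∀ c : Fin k → ℝ, dirichlet S (fun z => ∑ i, c i * u i z) ≤ R * arcIntegral p (fun z => (∑ i, c i * u i z) ^ 2)}

/-- The `k`-th interior Steklov eigenvalue (`k ≥ 1`), by the min-max principle; test functions: class `C¹`. -/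
noncomputable def interiorSteklov (p : ℝ → ℝ) (k : ℕ) : EReal := minMax p (domain p) (fun u => ContDiff ℝ 1 u) k

/-- The `k`-th exterior Steklov eigenvalue (`k ≥ 1`), by the min-max principle. -/
noncomputable def exteriorSteklov (p : ℝ → ℝ) (k : ℕ) : EReal := minMax p (exterior p) (IsExteriorTest p) k

/-- Let `p` be the support function of a convex domain, of class `C²`, `L` the perimeter. (1) The second exterior Steklov
eigenvalue is at least `(√5 - 1) π / L`. (2) If `L |Ω| < (√5 - 1) π ∫ (x - m)² ds`, `m` the mean of `x` on the boundary, the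
second interior eigenvalue is less than `(√5 - 1) π / L`. (3) The same if `6 L |Ω| < (√5 - 1) π D³`, `D = p 0 + p π`. -/
theorem result (p : ℝ → ℝ) (hp : IsSupportFunction p) :
    (((Real.sqrt 5 - 1) * Real.pi / perimeter p : ℝ) : EReal) ≤ exteriorSteklov p 2 ∧
      (perimeter p * volume.real (domain p) < (Real.sqrt 5 - 1) * Real.pi *
          arcIntegral p (fun z => (z.re - arcIntegral p (fun z => z.re) / perimeter p) ^ 2) →
        interiorSteklov p 2 < (((Real.sqrt 5 - 1) * Real.pi / perimeter p : ℝ) : EReal)) ∧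
      (6 * perimeter p * volume.real (domain p) < (Real.sqrt 5 - 1) * Real.pi * (p 0 + p Real.pi) ^ 3 →
        interiorSteklov p 2 < (((Real.sqrt 5 - 1) * Real.pi / perimeter p : ℝ) : EReal)) :=
  Pool.Agent.H74.CV.fin ⟨hp.contDiff, hp.periodic, hp.nonneg, hp.pos⟩

end Pool.Agent.Results.MP_bddfa3_an.PerimeterBound
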